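import Mathlib

/-! # A counting lemma in a finite commutative group with an action of `S₃` (piece SX-4) -/

set_option autoImplicit false

namespace Pool.Agent.K1H37.SX

theorem card_ker_range {A B : Type*} [Group A] [Group B] [Finite A] (f : A →* B) :
    Nat.card A = Nat.card f.ker * Nat.card f.range := by
  rw [← Subgroup.index_ker, Subgroup.card_mul_index]

theorem card_le {C : Type*} [CommGroup C] [Finite C] (s t : C ≃* C) (A : Subgroup C)
    (h3 : ∀ c ∈ A, c ^ 3 = 1) (hs : ∀ c, s (s (s c)) = c) (ht : ∀ c ∈ A, t c = c)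
    (X Y Z : ℕ) (Im : Set C) (hIm : Nat.card Im ≤ Z) (hν : ∀ c ∈ A, c * s c * s (s c) ∈ Im)
    (hP : Nat.card {c : C // c ^ 3 = 1 ∧ s c = c ∧ t c = c} ≤ X)
    (hM : Nat.card {c : C // c ^ 3 = 1 ∧ s c = c} ≤ Y) :
    Nat.card A ≤ Z * (X * Y) := by
  let ν : A →* C :=
    { toFun := fun c => (c : C) * s c * s (s c)
      map_one' := by simp
      map_mul' := by
        intro a b
        simp only [Subgroup.coe_mul, map_mul]
        rw [mul_mul_mul_comm (a : C) b, mul_mul_mul_comm ((a : C) * s a)] }
  let δ : ν.ker →* C :=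
    { toFun := fun c => ((c : A) : C) / s ((c : A) : C)
      map_one' := by simp
      map_mul' := by
        intro a b
        simp only [Subgroup.coe_mul, map_mul]
        rw [mul_div_mul_comm] }
  have h1 : Nat.card ν.range ≤ Z := by
    refine le_trans (Nat.card_le_card_of_injective
      (fun x : ν.range => (⟨x, ?_⟩ : Im)) ?_) hIm
    · obtain ⟨_, ⟨c, rfl⟩⟩ := x
      exact hν c c.2
    · intro x y h
      exact Subtype.ext (congrArg (fun z : Im => (z : C)) h)
  have h2 : Nat.card δ.ker ≤ X := by
    refine le_trans (Nat.card_le_card_of_injective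
      (fun x : δ.ker => (⟨((x : ν.ker) : A), h3 _ (x : ν.ker).1.2, ?_, ht _ (x : ν.ker).1.2⟩ :
        {c : C // c ^ 3 = 1 ∧ s c = c ∧ t c = c})) ?_) hP
    · have := x.2
      rw [MonoidHom.mem_ker] at this
      exact (div_eq_one.1 this).symm
    · intro x y h
      have h' := congrArg (fun z : {c : C // c ^ 3 = 1 ∧ s c = c ∧ t c = c} => (z : C)) h
      exact Subtype.ext (Subtype.ext (Subtype.ext h'))
  have h4 : Nat.card δ.range ≤ Y := by
    refine le_trans (Nat.card_le_card_of_injective
      (fun x : δ.range => (⟨x, ?_⟩ : {c : C // c ^ 3 = 1 ∧ s c = c})) ?_) hM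
    · obtain ⟨_, ⟨c, rfl⟩⟩ := x
      have hc := c.2
      rw [MonoidHom.mem_ker] at hc
      have hc' : ((c : A) : C) * s ((c : A) : C) * s (s ((c : A) : C)) = 1 := hc
      have h3c : ((c : A) : C) ^ 3 = 1 := h3 _ (c : A).2
      have h3s : (s ((c : A) : C)) ^ 3 = 1 := by rw [← map_pow, h3c, map_one]
      change (((c : A) : C) / s ((c : A) : C)) ^ 3 = 1 ∧
        s (((c : A) : C) / s ((c : A) : C)) = ((c : A) : C) / s ((c : A) : C)
      constructor
      · rw [div_pow, h3c, h3s, div_one]
      · rw [map_div, eq_comm, div_eq_div_iff_mul_eq_mul]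
        generalize s ((c : A) : C) = y at *
        generalize s y = z at *
        generalize ((c : A) : C) = x at *
        have e : x * z = x * y * z * y⁻¹ := by
          rw [mul_right_comm x y z, mul_assoc, mul_inv_cancel, mul_one]
        rw [e, hc', one_mul]
        have : y * y * y = 1 := by rw [← h3s, pow_succ, pow_two]
        exact (eq_inv_of_mul_eq_one_left this).symm
    · intro x y h
      exact Subtype.ext (congrArg (fun z : {c : C // c ^ 3 = 1 ∧ s c = c} => (z : C)) h)
  rw [card_ker_range ν, card_ker_range δ, mul_comm]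
  exact Nat.mul_le_mul h1 (Nat.mul_le_mul h2 h4)

end Pool.Agent.K1H37.SX
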