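import Pool.Agent.K1H79.SX.Stm
import Pool.Agent.H471R2.Bq.Basic
import Pool.Agent.K1H37.SX.Grp

/-! # The action of the Galois group on ideals and classes (piece SX-4) -/

set_option autoImplicit false

namespace Pool.Agent.K1H37.SX

open NumberField Pool.Agent.K1H79.SX Pool.Agent.H471R2
open scoped Classical nonZeroDivisors

section
variable {M : Type} [Field M] [NumberField M]

/-- a ring automorphism is an automorphism over `ℚ` -/
noncomputable def q (e : M ≃+* M) : M ≃ₐ[ℚ] M := AlgEquiv.ofRingEquiv (f := e) (fun r => by simp)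

theorem q_apply (e : M ≃+* M) (x : M) : q e x = e x := rfl

theorem ia_q (e : M ≃+* M) (I : Ideal (𝓞 M)) :
    ia (q e) I = I.map (RingOfIntegers.mapRingEquiv e : 𝓞 M →+* 𝓞 M) := rfl

theorem ca_ca (σ τ : M ≃ₐ[ℚ] M) (c : ClassGroup (𝓞 M)) : ca σ (ca τ c) = ca (σ * τ) c := by
  obtain ⟨I, hI, rfl⟩ := cl_surj c
  rw [ca_cl, ca_cl, ca_cl]
  exact cl_congr (ia_ia σ τ I) _

theorem ca_one (c : ClassGroup (𝓞 M)) : ca (1 : M ≃ₐ[ℚ] M) c = c := by
  obtain ⟨I, hI, rfl⟩ := cl_surj c
  rw [ca_cl]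
  exact cl_congr (ia_one I) _

theorem fix_iff {F : Type} [Field F] [NumberField F] [Algebra F M] (σ : M ≃ₐ[F] M)
    (c : ClassGroup (𝓞 M)) : Fix (sg σ) c ↔ ca (q (σ : M ≃+* M)) c = c := by
  constructor
  · intro h
    obtain ⟨I, hI, rfl⟩ := cl_surj c
    rw [ca_cl]
    exact h ⟨I, mem_nonZeroDivisors_iff_ne_zero.2 hI⟩ ⟨ia (q (σ : M ≃+* M)) I,
      mem_nonZeroDivisors_iff_ne_zero.2 (ia_ne_bot _ hI)⟩ rfl rfl
  · rintro h I J rfl hJ
    rw [← h]
    exact (mulEquiv_mk0 _ I J hJ).symm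

end

section
variable {F F' M : Type} [Field F] [NumberField F] [Field F'] [NumberField F']
  [Field M] [NumberField M] [Algebra F M] [Algebra F' M]

/-- the automorphisms which fix a class -/
noncomputable def stC (c : ClassGroup (𝓞 M)) : Subgroup (M ≃ₐ[F] M) where
  carrier := {g | ca (q (g : M ≃+* M)) c = c}
  one_mem' := ca_one c
  mul_mem' := by
    intro a b ha hb
    change ca (q ((a * b : M ≃ₐ[F] M) : M ≃+* M)) c = c
    have : q ((a * b : M ≃ₐ[F] M) : M ≃+* M) = q (a : M ≃+* M) * q (b : M ≃+* M) := rfl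
    rw [this, ← ca_ca]
    rw [Set.mem_setOf_eq] at ha hb
    rw [hb, ha]
  inv_mem' := by
    intro a ha
    rw [Set.mem_setOf_eq] at ha ⊢
    conv_lhs => rw [← ha]
    rw [ca_ca]
    have : q ((a⁻¹ : M ≃ₐ[F] M) : M ≃+* M) * q (a : M ≃+* M) = 1 := by
      ext x
      exact a.symm_apply_apply x
    rw [this]
    exact ca_one c

/-- the automorphisms which fix an ideal -/
noncomputable def stI (I : Ideal (𝓞 M)) : Subgroup (M ≃ₐ[F] M) where
  carrier := {g | ia (q (g : M ≃+* M)) I = I}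
  one_mem' := ia_one I
  mul_mem' := by
    intro a b ha hb
    change ia (q ((a * b : M ≃ₐ[F] M) : M ≃+* M)) I = I
    have : q ((a * b : M ≃ₐ[F] M) : M ≃+* M) = q (a : M ≃+* M) * q (b : M ≃+* M) := rfl
    rw [this, ← ia_ia]
    rw [Set.mem_setOf_eq] at ha hb
    rw [hb, ha]
  inv_mem' := by
    intro a ha
    rw [Set.mem_setOf_eq] at ha ⊢
    conv_lhs => rw [← ha]
    rw [ia_ia]
    have : q ((a⁻¹ : M ≃ₐ[F] M) : M ≃+* M) * q (a : M ≃+* M) = 1 := by
      ext x
      exact a.symm_apply_apply x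
    rw [this]
    exact ia_one I

/-- a group of order three is generated by a nontrivial element -/
theorem top_of_three {G : Type*} [Group G] (h : Nat.card G = 3) {g : G} (hg : g ≠ 1)
    (S : Subgroup G) (hS : g ∈ S) : S = ⊤ := by
  haveI : Fact (Nat.Prime 3) := ⟨Nat.prime_three⟩
  rw [eq_top_iff, ← zpowers_eq_top_of_prime_card h hg, Subgroup.zpowers_le]
  exact hS

theorem cube_of_three {G : Type*} [Group G] (h : Nat.card G = 3) (g : G) : g * (g * g) = 1 := by
  have := pow_card_eq_one' (x := g)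
  rw [h, pow_succ', pow_two] at this
  exact this

theorem prod_three {G A : Type*} [Group G] [Fintype G] [CommMonoid A] (h : Nat.card G = 3) {g : G}
    (hg : g ≠ 1) (f : G → A) : ∏ x, f x = f 1 * f g * f (g * g) := by
  have h1 : g * g ≠ 1 := by
    intro h1
    have := cube_of_three h g
    rw [h1, mul_one] at this
    exact hg this
  have h2 : g * g ≠ g := fun h2 => hg (mul_eq_left.1 h2)
  have h3 : (Finset.univ : Finset G) = {1, g, g * g} := by
    symm
    apply Finset.eq_univ_of_card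
    rw [← Nat.card_eq_fintype_card, h, Finset.card_insert_of_notMem, Finset.card_insert_of_notMem,
      Finset.card_singleton]
    · simpa using h2.symm
    · simp only [Finset.mem_insert, Finset.mem_singleton, not_or]
      exact ⟨hg.symm, h1.symm⟩
  rw [h3, Finset.prod_insert, Finset.prod_insert, Finset.prod_singleton, mul_assoc]
  · simpa using h2.symm
  · simp only [Finset.mem_insert, Finset.mem_singleton, not_or]
    exact ⟨hg.symm, h1.symm⟩

end

section
variable {F L F' M : Type} [Field F] [NumberField F] [Field L] [NumberField L] [Field F']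
  [NumberField F'] [Field M] [NumberField M] [Algebra F L] [Algebra F F'] [Algebra F M]
  [Algebra L M] [Algebra F' M] [IsScalarTower F L M] [IsScalarTower F F' M] [IsGalois F M]

/-- the two Galois groups generate -/
theorem gen (hL : Module.finrank F L = 3) (hF' : Module.finrank F F' = 2)
    (hLM : Module.finrank L M = 2) (hFM : Module.finrank F' M = 3)
    (S : Subgroup (M ≃ₐ[F] M)) (h1 : ∀ σ : M ≃ₐ[F'] M, σ.restrictScalars F ∈ S)
    (h2 : ∀ τ : M ≃ₐ[L] M, τ.restrictScalars F ∈ S) : S = ⊤ := by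
  have g1 : IsGalois F' M := IsGalois.tower_top_of_isGalois F F' M
  have g2 : IsGalois L M := IsGalois.tower_top_of_isGalois F L M
  have e1 : Nat.card (M ≃ₐ[F'] M) = 3 := by rw [IsGalois.card_aut_eq_finrank, hFM]
  have e2 : Nat.card (M ≃ₐ[L] M) = 2 := by rw [IsGalois.card_aut_eq_finrank, hLM]
  have e3 : Nat.card (M ≃ₐ[F] M) = 6 := by
    rw [IsGalois.card_aut_eq_finrank, ← Module.finrank_mul_finrank F L M, hL, hLM]
  have d1 : 3 ∣ Nat.card S := by
    have hle : (AlgEquiv.restrictScalarsHom F : (M ≃ₐ[F'] M) →* (M ≃ₐ[F] M)).range ≤ S := by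
      rintro _ ⟨σ, rfl⟩
      exact h1 σ
    refine dvd_trans ?_ (Subgroup.card_dvd_of_le hle)
    rw [← e1]
    exact (Nat.card_congr (MonoidHom.ofInjective
      (AlgEquiv.restrictScalarsHom_injective (R := F) (S := F') (A := M))).toEquiv).dvd
  have d2 : 2 ∣ Nat.card S := by
    have hle : (AlgEquiv.restrictScalarsHom F : (M ≃ₐ[L] M) →* (M ≃ₐ[F] M)).range ≤ S := by
      rintro _ ⟨σ, rfl⟩
      exact h2 σ
    refine dvd_trans ?_ (Subgroup.card_dvd_of_le hle)
    rw [← e2]
    exact (Nat.card_congr (MonoidHom.ofInjective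
      (AlgEquiv.restrictScalarsHom_injective (R := F) (S := L) (A := M))).toEquiv).dvd
  have d3 : Nat.card S ∣ 6 := by
    rw [← e3]
    exact Subgroup.card_subgroup_dvd_card S
  have d4 : Nat.card S = 6 := by
    have : 6 ∣ Nat.card S := by
      have := Nat.Coprime.mul_dvd_of_dvd_of_dvd (by norm_num : Nat.Coprime 3 2) d1 d2
      exact this
    exact Nat.dvd_antisymm d3 this
  exact Subgroup.eq_top_of_card_eq S (by rw [d4, e3])

variable (hL : Module.finrank F L = 3) (hF' : Module.finrank F F' = 2)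
    (hLM : Module.finrank L M = 2) (hFM : Module.finrank F' M = 3)
    (hrel : ∀ (σ : M ≃ₐ[F'] M) (τ : M ≃ₐ[L] M), τ ≠ 1 → ∀ x : M, τ (σ (τ x)) = σ.symm x)
    {σ : M ≃ₐ[F'] M} (hσ : σ ≠ 1)

include hL hF' hLM hFM hrel hσ in
/-- the norm of an element, up to sign -/
theorem norm_el (x : L) :
    algebraMap F M (Algebra.norm F x) = algebraMap L M x * σ (algebraMap L M x) *
      σ (σ (algebraMap L M x)) ∨
    algebraMap F M (Algebra.norm F x) = -(algebraMap L M x * σ (algebraMap L M x) *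
      σ (σ (algebraMap L M x))) := by
  have g1 : IsGalois F' M := IsGalois.tower_top_of_isGalois F F' M
  have e1 : Nat.card (M ≃ₐ[F'] M) = 3 := by rw [IsGalois.card_aut_eq_finrank, hFM]
  obtain ⟨X, hX⟩ : ∃ X, X = algebraMap L M x := ⟨_, rfl⟩
  obtain ⟨y, hy⟩ : ∃ y, y = X * σ X * σ (σ X) := ⟨_, rfl⟩
  have hσ3 : ∀ z : M, σ (σ (σ z)) = z := fun z => by
    have := congrArg (fun g : M ≃ₐ[F'] M => g z) (cube_of_three e1 σ)
    exact this
  have hsymm : ∀ z : M, σ.symm z = σ (σ z) := fun z => by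
    rw [AlgEquiv.symm_apply_eq, hσ3]
  have hyn : algebraMap F' M (Algebra.norm F' X) = y := by
    rw [Algebra.norm_eq_prod_automorphisms, prod_three e1 hσ, hy]
    rfl
  have hyfix : ∀ g : M ≃ₐ[F] M, g y = y := by
    have htop := gen hL hF' hLM hFM (MulAction.stabilizer (M ≃ₐ[F] M) y) (fun s => by
      rw [MulAction.mem_stabilizer_iff]
      change s y = y
      rw [← hyn]
      exact s.commutes _) (fun t => by
      rw [MulAction.mem_stabilizer_iff]
      change t y = y
      by_cases ht : t = 1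
      · rw [ht]; rfl
      · have hfx : t X = X := by rw [hX]; exact t.commutes x
        have r1 : t (σ X) = σ (σ X) := by
          have := hrel σ t ht X
          rw [hfx, hsymm] at this
          exact this
        have r2 : t (σ (σ X)) = σ X := by
          have := hrel (σ * σ) t ht X
          rw [hfx] at this
          change t (σ (σ X)) = _ at this
          rw [this, AlgEquiv.symm_apply_eq]
          exact (hσ3 X).symm
        rw [hy, map_mul, map_mul, hfx, r1, r2]
        ring)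
    intro g
    have : g ∈ MulAction.stabilizer (M ≃ₐ[F] M) y := by rw [htop]; trivial
    exact this
  obtain ⟨y0, hy0⟩ := IntermediateField.mem_bot.1 ((IsGalois.mem_bot_iff_fixed y).2 hyfix)
  have h1 : Algebra.norm F X = (Algebra.norm F x) ^ 2 := by
    rw [← Algebra.norm_norm (S := L) (R := F), hX, Algebra.norm_algebraMap, hLM, map_pow]
  have h2 : Algebra.norm F X = y0 ^ 2 := by
    rw [← Algebra.norm_norm (S := F') (R := F)]
    have : Algebra.norm F' X = algebraMap F F' y0 := by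
      apply (algebraMap F' M).injective
      rw [hyn, ← IsScalarTower.algebraMap_apply, hy0]
    rw [this, Algebra.norm_algebraMap, hF']
  have h3 : (Algebra.norm F x) ^ 2 = y0 ^ 2 := by rw [← h1, h2]
  rw [← hX, ← hy, ← hy0, ← map_neg]
  rcases sq_eq_sq_iff_eq_or_eq_neg.1 h3 with h | h
  · exact Or.inl (by rw [h])
  · exact Or.inr (by rw [h])

include hL hF' hLM hFM hrel hσ in
/-- the norm of an ideal -/
theorem norm_id (I : Ideal (𝓞 L)) (hI : I ≠ ⊥) :
    (I.map (algebraMap (𝓞 L) (𝓞 M))) * ia (q (σ : M ≃+* M)) (I.map (algebraMap (𝓞 L) (𝓞 M))) *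
      ia (q (σ : M ≃+* M)) (ia (q (σ : M ≃+* M)) (I.map (algebraMap (𝓞 L) (𝓞 M)))) =
    (Ideal.relNorm (𝓞 F) I).map (algebraMap (𝓞 F) (𝓞 M)) := by
  obtain ⟨J, hJ⟩ : ∃ J, J = I.map (algebraMap (𝓞 L) (𝓞 M)) := ⟨_, rfl⟩
  rw [← hJ]
  have hle : (Ideal.relNorm (𝓞 F) I).map (algebraMap (𝓞 F) (𝓞 M)) ≤
      J * ia (q (σ : M ≃+* M)) J * ia (q (σ : M ≃+* M)) (ia (q (σ : M ≃+* M)) J) := by
    rw [Ideal.map_relNorm, Ideal.span_le]
    rintro _ ⟨x, hx, rfl⟩
    simp only [Function.comp_apply, SetLike.mem_coe]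
    have hx1 : algebraMap (𝓞 L) (𝓞 M) x ∈ J := by rw [hJ]; exact Ideal.mem_map_of_mem _ hx
    have hx2 := ra_mem_ia (q (σ : M ≃+* M)) hx1
    have hx3 := ra_mem_ia (q (σ : M ≃+* M)) hx2
    have hmem := Ideal.mul_mem_mul (Ideal.mul_mem_mul hx1 hx2) hx3
    have e1 : ((algebraMap (𝓞 F) (𝓞 M) (Algebra.intNorm (𝓞 F) (𝓞 L) x) : 𝓞 M) : M) =
        algebraMap F M (Algebra.norm F (x : L)) := by
      have h1 : ((algebraMap (𝓞 F) (𝓞 M) (Algebra.intNorm (𝓞 F) (𝓞 L) x) : 𝓞 M) : M) =
        algebraMap F M (algebraMap (𝓞 F) F (Algebra.intNorm (𝓞 F) (𝓞 L) x)) := rfl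
      rw [h1, Algebra.algebraMap_intNorm (A := 𝓞 F) (K := F) (L := L) (B := 𝓞 L)]
    rcases norm_el hL hF' hLM hFM hrel hσ (x : L) with h | h
    · convert hmem using 1
      apply RingOfIntegers.ext
      rw [e1, h]
      rfl
    · rw [← neg_mem_iff]
      convert hmem using 1
      apply RingOfIntegers.ext
      have : ((-(algebraMap (𝓞 F) (𝓞 M) (Algebra.intNorm (𝓞 F) (𝓞 L) x)) : 𝓞 M) : M) =
        -((algebraMap (𝓞 F) (𝓞 M) (Algebra.intNorm (𝓞 F) (𝓞 L) x) : 𝓞 M) : M) := rfl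
      rw [this, e1, h, neg_neg]
      rfl
  obtain ⟨C, hC⟩ := Ideal.dvd_iff_le.2 hle
  have hn := congrArg Ideal.absNorm hC
  have f1 : Module.finrank (𝓞 F) (𝓞 M) = 6 := by
    have : Module.finrank (𝓞 F) (𝓞 M) = Module.finrank F M :=
      (IsFractionRing.finrank_eq (𝓞 F) F (𝓞 M) M).symm
    rw [this, ← Module.finrank_mul_finrank F L M, hL, hLM]
  have f2 : Module.finrank (𝓞 L) (𝓞 M) = 2 := by
    have : Module.finrank (𝓞 L) (𝓞 M) = Module.finrank L M :=
      (IsFractionRing.finrank_eq (𝓞 L) L (𝓞 M) M).symm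
    rw [this, hLM]
  rw [map_mul, Ideal.absNorm_algebraMap, Ideal.absNorm_relNorm, map_mul, map_mul, absNorm_ia,
    absNorm_ia, absNorm_ia, hJ, Ideal.absNorm_algebraMap, f1, f2] at hn
  have h0 : Ideal.absNorm I ≠ 0 := by rwa [Ne, Ideal.absNorm_eq_zero_iff]
  have h1 : Ideal.absNorm C = 1 := by
    have h2 : Ideal.absNorm I ^ 6 * Ideal.absNorm C = Ideal.absNorm I ^ 6 * 1 := by
      have e : Ideal.absNorm I ^ 2 * Ideal.absNorm I ^ 2 * Ideal.absNorm I ^ 2 =
        Ideal.absNorm I ^ 6 := by ring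
      rw [e] at hn
      rw [mul_one]
      exact hn.symm
    exact Nat.eq_of_mul_eq_mul_left (Nat.pos_of_ne_zero (pow_ne_zero _ h0)) h2
  rw [Ideal.absNorm_eq_one_iff] at h1
  rw [hC, h1, Ideal.mul_top]

end

end Pool.Agent.K1H37.SX
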