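import Pool.Agent.K1H37.SX.Act

/-! # The 3-torsion of a non-Galois cubic extension (piece SX-4) -/

set_option autoImplicit false

namespace Pool.Agent.K1H37.SX

open NumberField Pool.Agent.K1H79.SX Pool.Agent.H471R2
open scoped Classical nonZeroDivisors

section
variable {L M : Type} [Field L] [NumberField L] [Field M] [NumberField M] [Algebra L M]

theorem ext_cl {I : Ideal (𝓞 L)} (hI : I ≠ ⊥) (hJ : I.map (algebraMap (𝓞 L) (𝓞 M)) ≠ ⊥) :
    ClassGroup.extendedHom (𝓞 L) (𝓞 M) (cl I hI) = cl (I.map (algebraMap (𝓞 L) (𝓞 M))) hJ := by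
  unfold cl
  rw [ClassGroup.extendedHom_mk0]

theorem map_ne_bot {I : Ideal (𝓞 L)} (hI : I ≠ ⊥) : I.map (algebraMap (𝓞 L) (𝓞 M)) ≠ ⊥ := by
  rw [Ne, Ideal.map_eq_bot_iff_of_injective (FaithfulSMul.algebraMap_injective (𝓞 L) (𝓞 M))]
  exact hI

theorem pow_ne_bot {I : Ideal (𝓞 L)} (hI : I ≠ ⊥) (n : ℕ) : I ^ n ≠ ⊥ := pow_ne_zero n hI

theorem cl_pow {I : Ideal (𝓞 L)} (hI : I ≠ ⊥) (n : ℕ) :
    cl (I ^ n) (pow_ne_bot hI n) = cl I hI ^ n := by
  unfold cl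
  rw [← map_pow]
  rfl

/-- the extension is injective on the 3-torsion if the degree is two -/
theorem ext_inj (hLM : Module.finrank L M = 2) (c : ClassGroup (𝓞 L)) (h3 : c ^ 3 = 1)
    (h : ClassGroup.extendedHom (𝓞 L) (𝓞 M) c = 1) : c = 1 := by
  obtain ⟨I, hI, rfl⟩ := cl_surj c
  rw [ext_cl hI (map_ne_bot hI), cl_eq_one_iff] at h
  obtain ⟨x, hx, hIx⟩ := h
  have h1 : I ^ 2 = Ideal.span {Algebra.intNorm (𝓞 L) (𝓞 M) x} := by
    have h2 := Ideal.relNorm_algebraMap (R := 𝓞 L) (𝓞 M) I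
    have f2 : Module.finrank (𝓞 L) (𝓞 M) = 2 := by
      have : Module.finrank (𝓞 L) (𝓞 M) = Module.finrank L M :=
        (IsFractionRing.finrank_eq (𝓞 L) L (𝓞 M) M).symm
      rw [this, hLM]
    rw [hIx, Ideal.relNorm_singleton, f2] at h2
    exact h2.symm
  have h2 : cl I hI ^ 2 = 1 := by
    rw [← cl_pow hI 2, cl_eq_one_iff]
    refine ⟨_, ?_, h1⟩
    intro h0
    rw [h0] at h1
    apply pow_ne_bot hI 2
    rw [h1, Ideal.span_singleton_eq_bot]
  calc cl I hI = cl I hI ^ 3 * (cl I hI ^ 2)⁻¹ := by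
        rw [eq_mul_inv_iff_mul_eq, ← pow_succ']
    _ = 1 := by rw [h3, h2]; simp

end

/-- the subgroup of the classes killed by `3` and fixed by the members of `S` -/
noncomputable def DD {M : Type} [Field M] [NumberField M] (S : Set (M ≃ₐ[ℚ] M)) :
    Subgroup (ClassGroup (𝓞 M)) where
  carrier := {c | c ^ 3 = 1 ∧ ∀ s ∈ S, ca s c = c}
  one_mem' := ⟨one_pow 3, fun s _ => map_one _⟩
  mul_mem' := by
    rintro a b ⟨ha, ha'⟩ ⟨hb, hb'⟩
    exact ⟨by rw [mul_pow, ha, hb, one_mul], fun s hs => by rw [map_mul, ha' s hs, hb' s hs]⟩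
  inv_mem' := by
    rintro a ⟨ha, ha'⟩
    exact ⟨by rw [inv_pow, ha, inv_one], fun s hs => by rw [map_inv, ha' s hs]⟩

theorem mem_DD {M : Type} [Field M] [NumberField M] (S : Set (M ≃ₐ[ℚ] M))
    (c : ClassGroup (𝓞 M)) : c ∈ DD S ↔ c ^ 3 = 1 ∧ ∀ s ∈ S, ca s c = c := Iff.rfl

section
variable {F' M : Type} [Field F'] [NumberField F'] [Field M] [NumberField M] [Algebra F' M]

theorem fix_all (e1 : Nat.card (M ≃ₐ[F'] M) = 3) {σ : M ≃ₐ[F'] M} (hσ : σ ≠ 1)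
    (c : ClassGroup (𝓞 M)) (hc : ca (q (σ : M ≃+* M)) c = c) (f : M ≃ₐ[F'] M) :
    Fix (sg f) c := by
  rw [fix_iff]
  have htop := top_of_three e1 hσ (stC (F := F') c) hc
  have : f ∈ stC (F := F') c := by rw [htop]; trivial
  exact this

theorem amb_le (hAMB : S_AMB) [IsGalois F' M] (hFM : Module.finrank F' M = 3) {σ : M ≃ₐ[F'] M}
    (hσ : σ ≠ 1) (S : Set (M ≃ₐ[ℚ] M)) (hS : q (σ : M ≃+* M) ∈ S) (N : ℕ)
    (hN : Nat.card {c : ClassGroup (𝓞 M) // c ∈ DD S ∧ InvI F' M c} ≤ N) :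
    Nat.card (DD S) ≤ 3 ^ Module.finrank ℚ F' * N := by
  have e1 : Nat.card (M ≃ₐ[F'] M) = 3 := by rw [IsGalois.card_aut_eq_finrank, hFM]
  have h1 := hAMB F' M hFM (DD S) (fun c hc => by
    rw [mem_DD] at hc
    exact ⟨hc.1, fix_all e1 hσ c (hc.2 _ hS)⟩)
  exact h1.trans (Nat.mul_le_mul_left _ hN)

theorem card_inj {α : Type} (P Q : α → Prop) [Finite α] (h : ∀ a, P a → Q a) :
    Nat.card {a // P a} ≤ Nat.card {a // Q a} := by
  refine Nat.card_le_card_of_injective (fun x => ⟨x.1, h x.1 x.2⟩) ?_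
  intro x y hxy
  have h := congrArg Subtype.val hxy
  exact Subtype.ext h

theorem bM (hAMB : S_AMB) (hINV : S_INV) [IsGalois F' M] (hFM : Module.finrank F' M = 3)
    (hfin : (RamS F' M).Finite) {σ : M ≃ₐ[F'] M} (hσ : σ ≠ 1) :
    Nat.card (DD ({q (σ : M ≃+* M)} : Set (M ≃ₐ[ℚ] M))) ≤
      3 ^ Module.finrank ℚ F' * (3 ^ Nat.card (RamS F' M) * h3 F') := by
  have h2 := hINV F' M hfin
  rw [hFM] at h2
  refine amb_le hAMB hFM hσ _ (Set.mem_singleton _) _ (le_trans (card_inj _ _ ?_) h2)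
  intro c hc
  exact ⟨((mem_DD _ _).1 hc.1).1, hc.2⟩

end

section
variable {F L F' M : Type} [Field F] [NumberField F] [Field L] [NumberField L] [Field F']
  [NumberField F'] [Field M] [NumberField M] [Algebra F L] [Algebra F F'] [Algebra F M]
  [Algebra L M] [Algebra F' M] [IsScalarTower F L M] [IsScalarTower F F' M] [IsGalois F M]

theorem eq_of_two {G : Type*} [Group G] (e2 : Nat.card G = 2) {τ f : G} (hτ : τ ≠ 1)
    (hf : f ≠ 1) : f = τ := by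
  obtain ⟨x, y, hxy, hU⟩ := Nat.card_eq_two_iff.1 e2
  have m1 : (1 : G) ∈ ({x, y} : Set G) := by rw [hU]; trivial
  have m2 : τ ∈ ({x, y} : Set G) := by rw [hU]; trivial
  have m3 : f ∈ ({x, y} : Set G) := by rw [hU]; trivial
  rw [Set.mem_insert_iff, Set.mem_singleton_iff] at m1 m2 m3
  rcases m1 with m1 | m1 <;> rcases m2 with m2 | m2 <;> rcases m3 with m3 | m3
  · rw [m2, m3]
  · exact absurd (m2.trans m1.symm) hτ
  · exact absurd (m3.trans m1.symm) hf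
  · rw [m2, m3]
  · rw [m2, m3]
  · exact absurd (m3.trans m1.symm) hf
  · exact absurd (m2.trans m1.symm) hτ
  · rw [m2, m3]

variable (hL : Module.finrank F L = 3) (hF' : Module.finrank F F' = 2)
    (hLM : Module.finrank L M = 2) (hFM : Module.finrank F' M = 3)
    {σ : M ≃ₐ[F'] M} (hσ : σ ≠ 1) {τ : M ≃ₐ[L] M} (hτ : τ ≠ 1)
    (htt : q (τ : M ≃+* M) * q (τ : M ≃+* M) = 1)
    (hts : q (σ : M ≃+* M) * q (τ : M ≃+* M) =
      q (τ : M ≃+* M) * (q (σ : M ≃+* M) * q (σ : M ≃+* M)))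

include hL hF' hLM hFM hσ hτ htt hts in
theorem key_inv (c : ClassGroup (𝓞 M)) (hc3 : ca (q (τ : M ≃+* M)) c = c)
    (hInv : InvI F' M c) : InvI F M (c ^ 2) := by
  have g1 : IsGalois F' M := IsGalois.tower_top_of_isGalois F F' M
  have g2 : IsGalois L M := IsGalois.tower_top_of_isGalois F L M
  have e1 : Nat.card (M ≃ₐ[F'] M) = 3 := by rw [IsGalois.card_aut_eq_finrank, hFM]
  have e2 : Nat.card (M ≃ₐ[L] M) = 2 := by rw [IsGalois.card_aut_eq_finrank, hLM]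
  obtain ⟨⟨I, hI'⟩, hIc, hIf⟩ := hInv
  have hI : I ≠ ⊥ := mem_nonZeroDivisors_iff_ne_zero.1 hI'
  have hIc' : cl I hI = c := hIc
  have hsI : ia (q (σ : M ≃+* M)) I = I := hIf σ
  have htI := ia_ne_bot (q (τ : M ≃+* M)) hI
  have hne : I * ia (q (τ : M ≃+* M)) I ≠ ⊥ := mul_ne_zero hI htI
  have hs' : ia (q (σ : M ≃+* M)) (I * ia (q (τ : M ≃+* M)) I) =
      I * ia (q (τ : M ≃+* M)) I := by
    rw [ia_mul, hsI, ia_ia, hts, ← ia_ia, ← ia_ia, hsI, hsI]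
  have ht' : ia (q (τ : M ≃+* M)) (I * ia (q (τ : M ≃+* M)) I) =
      I * ia (q (τ : M ≃+* M)) I := by
    rw [ia_mul, ia_ia, htt, ia_one, mul_comm]
  refine ⟨⟨I * ia (q (τ : M ≃+* M)) I, mem_nonZeroDivisors_iff_ne_zero.2 hne⟩, ?_, ?_⟩
  · have h1 := cl_mul I (ia (q (τ : M ≃+* M)) I) hI htI
    rw [← ca_cl (q (τ : M ≃+* M)) I hI, hIc', hc3, ← pow_two] at h1
    exact h1
  · have htop := gen (M := M) hL hF' hLM hFM (stI (F := F) (I * ia (q (τ : M ≃+* M)) I))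
      (fun f => by
        have htop := top_of_three e1 hσ (stI (F := F') (I * ia (q (τ : M ≃+* M)) I)) hs'
        have : f ∈ stI (F := F') (I * ia (q (τ : M ≃+* M)) I) := by rw [htop]; trivial
        exact this) (fun f => by
      by_cases hf : f = 1
      · rw [hf]; exact one_mem _
      · rw [eq_of_two e2 hτ hf]
        exact ht')
    intro f
    have : f ∈ stI (F := F) (I * ia (q (τ : M ≃+* M)) I) := by rw [htop]; trivial
    exact this

include hL hF' hLM hFM hσ hτ htt hts in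
theorem bP (hAMB : S_AMB) (hINV : S_INV) (hfin : (RamS F M).Finite) :
    Nat.card (DD ({q (σ : M ≃+* M), q (τ : M ≃+* M)} : Set (M ≃ₐ[ℚ] M))) ≤
      3 ^ Module.finrank ℚ F' * (6 ^ Nat.card (RamS F M) * h3 F) := by
  have g1 : IsGalois F' M := IsGalois.tower_top_of_isGalois F F' M
  have h2 := hINV F M hfin
  rw [show Module.finrank F M = 6 by
    rw [← Module.finrank_mul_finrank F L M, hL, hLM]] at h2
  refine amb_le hAMB hFM hσ _ (Set.mem_insert _ _) _ (le_trans ?_ h2)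
  have hp : ∀ c : ClassGroup (𝓞 M), c ∈ DD ({q (σ : M ≃+* M), q (τ : M ≃+* M)} :
      Set (M ≃ₐ[ℚ] M)) → c ^ 3 = 1 := fun c hc => ((mem_DD _ _).1 hc).1
  refine Nat.card_le_card_of_injective (fun x => ⟨x.1 ^ 2, ?_, ?_⟩) ?_
  · rw [← pow_mul, mul_comm, pow_mul, hp x.1 x.2.1, one_pow]
  · refine key_inv hL hF' hLM hFM hσ hτ htt hts x.1 ?_ x.2.2
    exact ((mem_DD _ _).1 x.2.1).2 _ (Set.mem_insert_of_mem _ (Set.mem_singleton _))
  · intro x y hxy
    have h := congrArg Subtype.val hxy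
    have h' : x.1 ^ 2 = y.1 ^ 2 := h
    have hx := hp x.1 x.2.1
    have hy := hp y.1 y.2.1
    apply Subtype.ext
    rw [pow_succ'] at hx hy
    rw [eq_inv_of_mul_eq_one_left hx, eq_inv_of_mul_eq_one_left hy, h']

variable (hrel : ∀ (σ : M ≃ₐ[F'] M) (τ : M ≃ₐ[L] M), τ ≠ 1 → ∀ x : M, τ (σ (τ x)) = σ.symm x)

include hL hF' hLM hFM hrel hσ in
theorem nu_mem (I : Ideal (𝓞 L)) (hI : I ≠ ⊥) (hc3 : cl I hI ^ 3 = 1) :
    ∃ b : ClassGroup (𝓞 F), b ^ 3 = 1 ∧ ClassGroup.extendedHom (𝓞 F) (𝓞 M) b =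
      ClassGroup.extendedHom (𝓞 L) (𝓞 M) (cl I hI) *
      ca (q (σ : M ≃+* M)) (ClassGroup.extendedHom (𝓞 L) (𝓞 M) (cl I hI)) *
      ca (q (σ : M ≃+* M)) (ca (q (σ : M ≃+* M))
        (ClassGroup.extendedHom (𝓞 L) (𝓞 M) (cl I hI))) := by
  have hJ := map_ne_bot (M := M) hI
  have hN : Ideal.relNorm (𝓞 F) I ≠ ⊥ := by rwa [Ne, Ideal.relNorm_eq_bot_iff]
  refine ⟨cl (Ideal.relNorm (𝓞 F) I) hN, ?_, ?_⟩
  · rw [← cl_pow hI 3, cl_eq_one_iff] at hc3
    obtain ⟨x, hx, hIx⟩ := hc3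
    rw [← cl_pow hN 3, cl_eq_one_iff]
    have h1 : Ideal.relNorm (𝓞 F) I ^ 3 = Ideal.span {Algebra.intNorm (𝓞 F) (𝓞 L) x} := by
      rw [← map_pow, hIx, Ideal.relNorm_singleton]
    refine ⟨_, ?_, h1⟩
    intro h0
    rw [h0] at h1
    apply pow_ne_bot hN 3
    rw [h1, Ideal.span_singleton_eq_bot]
  · have hn := norm_id hL hF' hLM hFM hrel hσ I hI
    rw [ext_cl hN (map_ne_bot hN), ext_cl hI hJ, ca_cl, ca_cl,
      ← cl_mul _ _ hJ (ia_ne_bot _ hJ),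
      ← cl_mul _ _ (mul_ne_zero hJ (ia_ne_bot _ hJ)) (ia_ne_bot _ (ia_ne_bot _ hJ))]
    exact (cl_congr hn _).symm

end

/-- the 3-torsion -/
noncomputable def TT (L : Type) [Field L] [NumberField L] : Subgroup (ClassGroup (𝓞 L)) :=
  (powMonoidHom 3 : ClassGroup (𝓞 L) →* ClassGroup (𝓞 L)).ker

theorem mem_TT {L : Type} [Field L] [NumberField L] {c : ClassGroup (𝓞 L)} :
    c ∈ TT L ↔ c ^ 3 = 1 := by
  rw [TT, MonoidHom.mem_ker, powMonoidHom_apply]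

theorem card_TT (L : Type) [Field L] [NumberField L] : Nat.card (TT L) = h3 L :=
  Nat.card_congr (Equiv.subtypeEquivRight fun _ => mem_TT)

section
variable {L M : Type} [Field L] [NumberField L] [Field M] [NumberField M] [Algebra L M]

theorem card_A (hLM : Module.finrank L M = 2) :
    Nat.card ((TT L).map (ClassGroup.extendedHom (𝓞 L) (𝓞 M))) = h3 L := by
  rw [← card_TT]
  have hinj : Set.InjOn (ClassGroup.extendedHom (𝓞 L) (𝓞 M)) (TT L : Set (ClassGroup (𝓞 L))) := by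
    intro a ha b hb hab
    have ha3 : a ^ 3 = 1 := mem_TT.1 ha
    have hb3 : b ^ 3 = 1 := mem_TT.1 hb
    have h1 := ext_inj hLM (a / b) (by rw [div_pow, ha3, hb3, div_one])
      (by rw [map_div, hab, div_self'])
    exact div_eq_one.1 h1
  have h1 := Nat.card_image_of_injOn hinj
  exact h1

theorem tau_fix (τ : M ≃ₐ[L] M) (c : ClassGroup (𝓞 L)) :
    ca (q (τ : M ≃+* M)) (ClassGroup.extendedHom (𝓞 L) (𝓞 M) c) =
      ClassGroup.extendedHom (𝓞 L) (𝓞 M) c := by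
  obtain ⟨I, hI, rfl⟩ := cl_surj c
  rw [ext_cl hI (map_ne_bot hI), ca_cl]
  refine cl_congr ?_ _
  rw [ia_q, Ideal.map_map]
  congr 1
  ext x
  exact τ.commutes (x : L)

end

theorem t_S3of : S_S3of := by
  intro hINV hAMB hRAM F L F' M _ _ _ _ _ _ _ _ _ _ _ _ _ hS
  obtain ⟨i1, i2, i3, hL, hF', hLM, hFM, hrel⟩ := hS
  have g1 : IsGalois F' M := IsGalois.tower_top_of_isGalois F F' M
  have g2 : IsGalois L M := IsGalois.tower_top_of_isGalois F L M
  have e1 : Nat.card (M ≃ₐ[F'] M) = 3 := by rw [IsGalois.card_aut_eq_finrank, hFM]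
  have e2 : Nat.card (M ≃ₐ[L] M) = 2 := by rw [IsGalois.card_aut_eq_finrank, hLM]
  obtain ⟨σ, hσ⟩ : ∃ σ : M ≃ₐ[F'] M, σ ≠ 1 := by
    by_contra hcon
    push Not at hcon
    have : Subsingleton (M ≃ₐ[F'] M) := ⟨fun a b => by rw [hcon a, hcon b]⟩
    have h1 := Finite.card_le_one_iff_subsingleton.2 this
    omega
  obtain ⟨τ, hτ⟩ : ∃ τ : M ≃ₐ[L] M, τ ≠ 1 := by
    by_contra hcon
    push Not at hcon
    have : Subsingleton (M ≃ₐ[L] M) := ⟨fun a b => by rw [hcon a, hcon b]⟩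
    have h1 := Finite.card_le_one_iff_subsingleton.2 this
    omega
  have hσ3 : ∀ z : M, σ (σ (σ z)) = z := fun z =>
    congrArg (fun g : M ≃ₐ[F'] M => g z) (cube_of_three e1 σ)
  have hτ2 : ∀ z : M, τ (τ z) = z := fun z => by
    have := pow_card_eq_one' (x := τ)
    rw [e2, pow_two] at this
    exact congrArg (fun g : M ≃ₐ[L] M => g z) this
  have hs3 : q (σ : M ≃+* M) * (q (σ : M ≃+* M) * q (σ : M ≃+* M)) = 1 := by
    ext z; exact hσ3 z
  have htt : q (τ : M ≃+* M) * q (τ : M ≃+* M) = 1 := by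
    ext z; exact hτ2 z
  have hts : q (σ : M ≃+* M) * q (τ : M ≃+* M) =
      q (τ : M ≃+* M) * (q (σ : M ≃+* M) * q (σ : M ≃+* M)) := by
    ext z
    change σ (τ z) = τ (σ (σ z))
    have h3 := hrel (σ * σ) τ hτ (τ z)
    change τ (σ (σ (τ (τ z)))) = _ at h3
    rw [hτ2] at h3
    rw [h3, AlgEquiv.eq_symm_apply]
    exact hσ3 (τ z)
  have b1 := bM hAMB hINV hFM (hRAM F' M).1 hσ
  have b2 := bP hL hF' hLM hFM hσ hτ htt hts hAMB hINV (hRAM F M).1
  have hfin := card_le (ca (q (σ : M ≃+* M))) (ca (q (τ : M ≃+* M)))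
    ((TT L).map (ClassGroup.extendedHom (𝓞 L) (𝓞 M))) (by
      rintro _ ⟨c, hc, rfl⟩
      have hc3 : c ^ 3 = 1 := mem_TT.1 hc
      rw [← map_pow, hc3, map_one]) (fun c => by
      rw [ca_ca, ca_ca, mul_assoc, hs3, ca_one]) (by
      rintro _ ⟨c, hc, rfl⟩
      exact tau_fix τ c) _ _ (h3 F)
    ((ClassGroup.extendedHom (𝓞 F) (𝓞 M)) '' (TT F : Set (ClassGroup (𝓞 F))))
    (by
      rw [← card_TT]
      exact Nat.card_image_le (Set.toFinite _)) (by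
      rintro _ ⟨c, hc, rfl⟩
      have hc3 : c ^ 3 = 1 := mem_TT.1 hc
      obtain ⟨I, hI, rfl⟩ := cl_surj c
      obtain ⟨b, hb, hb2⟩ := nu_mem hL hF' hLM hFM hσ hrel I hI hc3
      exact ⟨b, mem_TT.2 hb, hb2⟩)
    (le_trans (card_inj _ _ (fun c hc => by
      rw [mem_DD]
      refine ⟨hc.1, ?_⟩
      intro s hs
      rw [Set.mem_insert_iff, Set.mem_singleton_iff] at hs
      rcases hs with rfl | rfl
      · exact hc.2.1
      · exact hc.2.2)) b2)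
    (le_trans (card_inj _ _ (fun c hc => by
      rw [mem_DD]
      refine ⟨hc.1, ?_⟩
      intro s hs
      rw [Set.mem_singleton_iff] at hs
      rw [hs]
      exact hc.2)) b1)
  rw [card_A hLM] at hfin
  refine hfin.trans (le_of_eq ?_)
  ring

end Pool.Agent.K1H37.SX
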